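import Pool.Agent.K3h68.ET.HYP2
import Mathlib.RingTheory.AlgebraicIndependent.AlgebraicClosure
import Mathlib.FieldTheory.AlgebraicClosure

/-! ET brick GENA for helper22 (linear spaces with generic coefficients) -/

set_option autoImplicit false

namespace Pool.Agent.K3h68.ET

open Pool.Agent.K3h22.EX MvPolynomial

/-- the Gram determinant of independent rational rows -/
theorem gram_ne {r n : ℕ} (p : Fin r → Fin n → ℚ) (hp : LinearIndependent ℚ p) :
    (Matrix.of fun k l => ∑ i, p k i * p l i).det ≠ 0 := by
  intro h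
  obtain ⟨v, hv, hv2⟩ := Matrix.exists_vecMul_eq_zero_iff.2 h
  apply hv
  have h1 : ∀ l, ∑ k, v k * ∑ i, p k i * p l i = 0 := by
    intro l
    have := congrFun hv2 l
    simpa [Matrix.vecMul, dotProduct] using this
  have h2 : ∑ i, (∑ k, v k * p k i) ^ 2 = 0 := by
    calc ∑ i, (∑ k, v k * p k i) ^ 2 = ∑ i, ∑ l, ∑ k, v l * (v k * (p k i * p l i)) := by
          refine Finset.sum_congr rfl fun i _ => ?_
          rw [sq, Finset.mul_sum]
          refine Finset.sum_congr rfl fun l _ => ?_
          rw [Finset.sum_mul]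
          exact Finset.sum_congr rfl fun k _ => by ring
      _ = ∑ l, v l * ∑ k, v k * ∑ i, p k i * p l i := by
          rw [Finset.sum_comm]
          refine Finset.sum_congr rfl fun l _ => ?_
          rw [Finset.sum_comm, Finset.mul_sum]
          refine Finset.sum_congr rfl fun k _ => ?_
          rw [Finset.mul_sum, Finset.mul_sum]
      _ = 0 := Finset.sum_eq_zero fun l _ => by rw [h1 l, mul_zero]
  have h3 : ∀ i, ∑ k, v k * p k i = 0 := by
    intro i
    have := (Finset.sum_eq_zero_iff_of_nonneg (fun i _ => sq_nonneg (∑ k, v k * p k i))).1 h2 i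
      (Finset.mem_univ i)
    exact pow_eq_zero_iff (two_ne_zero) |>.1 this
  have h4 := Fintype.linearIndependent_iff.1 hp v (by
    funext i
    simpa [Finset.sum_apply] using h3 i)
  exact funext h4

/-- `det (p X) ≠ 0` for independent rational rows `p` and `X` with independent entries -/
theorem det_ne {K : Type} [Field K] [CharZero K] {r n : ℕ} (p : Fin r → Fin n → ℚ)
    (hp : LinearIndependent ℚ p) (X : Fin n → Fin r → K)
    (hX : AlgebraicIndependent ℚ (fun q : Fin n × Fin r => X q.1 q.2)) :
    (Matrix.of fun k l => ∑ i, (p k i : K) * X i l).det ≠ 0 := by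
  intro h
  let P : Matrix (Fin r) (Fin r) (MvPolynomial (Fin n × Fin r) ℚ) :=
    Matrix.of fun k l => ∑ i, C (p k i) * MvPolynomial.X (i, l)
  have h1 : aeval (fun q : Fin n × Fin r => X q.1 q.2) P.det = 0 := by
    rw [AlgHom.map_det]
    rw [← h]
    congr 1
    ext k l
    simp [P, Matrix.map_apply]
  have h2 : P.det = 0 := by
    apply hX
    rw [h1, map_zero]
  have h3 : aeval (fun q : Fin n × Fin r => p q.2 q.1) P.det = (0 : ℚ) := by
    rw [h2, map_zero]
  apply gram_ne p hp
  rw [← h3, AlgHom.map_det]
  congr 1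
  ext k l
  simp [P, Matrix.map_apply]

theorem map_aeval {J K : Type} [Field K] [CharZero K] (P : MvPolynomial J ℚ) :
    MvPolynomial.map (algebraMap ℚ K) P = aeval (fun j => (X j : MvPolynomial J K)) P := by
  induction P using MvPolynomial.induction_on with
  | C a => simp
  | add p q hp hq => simp [hp, hq]
  | mul_X p i hp => simp [hp]

/-- `x + i y` is algebraically independent if `x`, `y` are -/
theorem indep_complex {J : Type} (x y : J → ℝ) (h : AlgebraicIndependent ℚ (Sum.elim x y)) :
    AlgebraicIndependent ℚ (fun j => (x j : ℂ) + Complex.I * (y j : ℂ)) := by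
  have h1 : AlgebraicIndependent ℚ
      (fun t : J ⊕ J => ((Sum.elim x y t : ℝ) : ℂ)) := by
    have := h.map' (f := (Algebra.ofId ℝ ℂ).restrictScalars ℚ) (by
      intro a b hab
      exact Complex.ofReal_injective hab)
    exact this
  have h2 := h1.algebraicClosure
  have hI : Complex.I ∈ algebraicClosure ℚ ℂ := by
    rw [mem_algebraicClosure_iff]
    refine ⟨Polynomial.X ^ 2 + 1, ?_, ?_⟩
    · intro h0
      have := congrArg (fun p => Polynomial.coeff p 0) h0
      simp at this
    · simp
  let I' : algebraicClosure ℚ ℂ := ⟨Complex.I, hI⟩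
  rw [algebraicIndependent_iff]
  intro P hP
  let Q : MvPolynomial (J ⊕ J) (algebraicClosure ℚ ℂ) :=
    aeval (fun j => X (Sum.inl j) + C I' * X (Sum.inr j)) P
  have h3 : aeval (fun t : J ⊕ J => ((Sum.elim x y t : ℝ) : ℂ)) Q = 0 := by
    rw [← hP]
    have : ((aeval (fun t : J ⊕ J => ((Sum.elim x y t : ℝ) : ℂ)) :
        MvPolynomial (J ⊕ J) (algebraicClosure ℚ ℂ) →ₐ[algebraicClosure ℚ ℂ] ℂ).restrictScalars ℚ).comp
        (aeval (fun j => X (Sum.inl j) + C I' * X (Sum.inr j))) =
        (aeval (fun j => (x j : ℂ) + Complex.I * (y j : ℂ)) : MvPolynomial J ℚ →ₐ[ℚ] ℂ) := by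
      apply MvPolynomial.algHom_ext
      intro j
      simp only [AlgHom.comp_apply, aeval_X, AlgHom.restrictScalars_apply, map_add, map_mul,
        Sum.elim_inl, Sum.elim_inr]
      congr 2
      exact MvPolynomial.algHom_C _ _
    exact DFunLike.congr_fun this P
  have h4 : Q = 0 := by
    apply h2
    rw [h3, map_zero]
  have h5 : (aeval (Sum.elim (fun j => X j) (fun _ => 0) : J ⊕ J → MvPolynomial J (algebraicClosure ℚ ℂ)) :
      MvPolynomial (J ⊕ J) (algebraicClosure ℚ ℂ) →ₐ[algebraicClosure ℚ ℂ] _) Q = 0 := by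
    rw [h4, map_zero]
  have h6 : MvPolynomial.map (algebraMap ℚ (algebraicClosure ℚ ℂ)) P = 0 := by
    rw [← h5]
    have : ((aeval (Sum.elim (fun j => X j) (fun _ => 0) : J ⊕ J → MvPolynomial J (algebraicClosure ℚ ℂ)) :
      MvPolynomial (J ⊕ J) (algebraicClosure ℚ ℂ) →ₐ[algebraicClosure ℚ ℂ] _).restrictScalars ℚ).comp
        (aeval (fun j => X (Sum.inl j) + C I' * X (Sum.inr j))) =
        (aeval (fun j => X j) : MvPolynomial J ℚ →ₐ[ℚ] MvPolynomial J (algebraicClosure ℚ ℂ)) := by
      apply MvPolynomial.algHom_ext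
      intro j
      simp
    rw [map_aeval]
    exact (DFunLike.congr_fun this P).symm
  exact MvPolynomial.map_injective _ (algebraMap ℚ (algebraicClosure ℚ ℂ)).injective
    (by rw [h6, map_zero])

theorem det_zero {K : Type} [Field K] [CharZero K] {r n : ℕ} (p : Fin r → Fin n → ℚ)
    (l : Fin r → K) (hl : l ≠ 0) (X : Fin n → Fin r → K) (c : Fin n → K)
    (hc : ∀ i, c i = ∑ k, (p k i : K) * l k) (h0 : ∀ b, ∑ i, c i * X i b = 0) :
    (Matrix.of fun k b => ∑ i, (p k i : K) * X i b).det = 0 := by
  rw [← Matrix.exists_vecMul_eq_zero_iff]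
  refine ⟨l, hl, funext fun b => ?_⟩
  have : (Matrix.vecMul l (Matrix.of fun k b => ∑ i, (p k i : K) * X i b)) b =
      ∑ i, c i * X i b := by
    simp only [Matrix.vecMul, dotProduct, Matrix.of_apply, hc, Finset.mul_sum, Finset.sum_mul]
    rw [Finset.sum_comm]
    exact Finset.sum_congr rfl fun i _ => Finset.sum_congr rfl fun k _ => by ring
  rw [this, h0 b]
  rfl

/-- GENA -/
theorem t_GENA : S_GENA := by
  intro n s L A u hsn hL hA
  have hdir : ∀ v : Fin n → ℂ, v ∈ L.direction ↔ ∃ z : Fin s → ℂ, ∀ i, v i = ∑ a, A i a * z a := by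
    intro v
    have hu : u ∈ L := (hL u).2 ⟨0, fun i => by simp⟩
    rw [← AffineSubspace.vadd_mem_iff_mem_direction v hu, hL]
    constructor
    · rintro ⟨z, hz⟩
      refine ⟨z, fun i => ?_⟩
      have := hz i
      simp only [vadd_eq_add, Pi.add_apply] at this
      linear_combination this
    · rintro ⟨z, hz⟩
      refine ⟨z, fun i => ?_⟩
      simp only [vadd_eq_add, Pi.add_apply, hz i]
      ring
  have hAC : AlgebraicIndependent ℚ (fun q : Fin n × Fin s => A q.1 q.2) := by
    have := indep_complex _ _ hA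
    convert this using 2 with q
    rw [mul_comm]
    exact (Complex.re_add_im _).symm
  have hcolmem : ∀ a, (fun i => A i a) ∈ L.direction := by
    intro a
    rw [hdir]
    exact ⟨Pi.single a 1, fun i => by simp [Pi.single_apply]⟩
  refine ⟨?_, ?_, ?_⟩
  · -- the dimension
    let T : (Fin s → ℂ) →ₗ[ℂ] (Fin n → ℂ) := (Matrix.of A).mulVecLin
    have hT : ∀ z i, T z i = ∑ a, A i a * z a := fun z i => rfl
    have hD : L.direction = LinearMap.range T := by
      ext v
      rw [hdir, LinearMap.mem_range]
      constructor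
      · rintro ⟨z, hz⟩
        exact ⟨z, funext fun i => by rw [hT, hz i]⟩
      · rintro ⟨z, rfl⟩
        exact ⟨z, fun i => hT z i⟩
    have hinj : Function.Injective T := by
      rw [← LinearMap.ker_eq_bot, LinearMap.ker_eq_bot']
      intro z hz
      by_contra hz0
      let p : Fin s → Fin n → ℚ := fun k => Pi.single (Fin.castLE hsn k) 1
      have hp : LinearIndependent ℚ p := by
        have := (Pi.basisFun ℚ (Fin n)).linearIndependent.comp (Fin.castLE hsn)
          (Fin.castLE_injective hsn)
        convert this using 1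
        funext k
        simp [p]
      apply det_ne p hp A hAC
      rw [← Matrix.exists_mulVec_eq_zero_iff]
      refine ⟨z, hz0, funext fun k => ?_⟩
      have h1 := congrFun hz (Fin.castLE hsn k)
      rw [hT] at h1
      simp only [Matrix.mulVec, dotProduct, Matrix.of_apply, p]
      have h1' : ∑ a, A (Fin.castLE hsn k) a * z a = (0 : ℂ) := h1
      refine Eq.trans ?_ h1'
      refine Finset.sum_congr rfl fun a _ => ?_
      congr 1
      rw [Finset.sum_eq_single (Fin.castLE hsn k)]
      · simp
      · intro j _ hj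
        simp [Pi.single_apply, hj]
      · simp
    rw [hD, LinearMap.finrank_range_of_inj hinj, Module.finrank_fin_fun]
  · -- real coefficients
    intro c hc hr
    by_contra hcon
    push Not at hcon
    have hcol : ∀ a, ∑ i, (c i : ℂ) * A i a = 0 := fun a => hcon _ (hcolmem a)
    obtain ⟨p, l, hp, hcp⟩ := ratRows c _ rfl
    generalize hrr : Module.finrank ℚ (Submodule.span ℚ (Set.range c)) = r at *
    have hl : l ≠ 0 := by
      rintro rfl
      exact hc (funext fun i => by rw [hcp i]; simp)
    let Y : Fin n → Fin s ⊕ Fin s → ℝ := fun i =>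
      Sum.elim (fun a => (A i a).re) (fun a => (A i a).im)
    have hY : ∀ b, ∑ i, c i * Y i b = 0 := by
      rintro (a | a)
      · have := congrArg Complex.re (hcol a)
        simpa [Y] using this
      · have := congrArg Complex.im (hcol a)
        simpa [Y] using this
    let e : Fin r → Fin s ⊕ Fin s := fun k =>
      finSumFinEquiv.symm (Fin.castLE (show r ≤ s + s by omega) k)
    have he : Function.Injective e := fun a b hab =>
      Fin.castLE_injective _ (finSumFinEquiv.symm.injective hab)
    let g : Fin n × Fin r → (Fin n × Fin s) ⊕ (Fin n × Fin s) := fun q =>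
      Sum.map (fun a => (q.1, a)) (fun a => (q.1, a)) (e q.2)
    have hg : Function.Injective g := by
      rintro ⟨i, k⟩ ⟨j, m⟩ h
      simp only [g] at h
      rcases h1 : e k with a | a <;> rcases h2 : e m with b | b <;> rw [h1, h2] at h <;>
        simp at h
      · obtain ⟨rfl, rfl⟩ := h
        rw [he (h1.trans h2.symm)]
      · obtain ⟨rfl, rfl⟩ := h
        rw [he (h1.trans h2.symm)]
    have hind := hA.comp g hg
    have hge : (Sum.elim (fun p : Fin n × Fin s => (A p.1 p.2).re)
        (fun p : Fin n × Fin s => (A p.1 p.2).im)) ∘ g = fun q => Y q.1 (e q.2) := by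
      funext q
      simp only [Function.comp_apply, g, Y]
      rcases e q.2 with a | a <;> rfl
    rw [hge] at hind
    exact det_ne p hp (fun i k => Y i (e k)) hind
      (det_zero p l hl (fun i k => Y i (e k)) c hcp fun b => hY (e b))
  · -- complex coefficients
    intro c hc hr
    by_contra hcon
    push Not at hcon
    have hcol : ∀ a, ∑ i, c i * A i a = 0 := fun a => hcon _ (hcolmem a)
    obtain ⟨p, l, hp, hcp⟩ := ratRows c _ rfl
    generalize hrr : Module.finrank ℚ (Submodule.span ℚ (Set.range c)) = r at *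
    have hl : l ≠ 0 := by
      rintro rfl
      exact hc (funext fun i => by rw [hcp i]; simp)
    have hind := hAC.comp (fun q : Fin n × Fin r => (q.1, Fin.castLE hr q.2)) (by
      rintro ⟨i, k⟩ ⟨j, m⟩ h
      simp only [Prod.mk.injEq] at h
      rw [h.1, Fin.castLE_injective hr h.2])
    exact det_ne p hp (fun i k => A i (Fin.castLE hr k)) hind
      (det_zero p l hl _ c hcp fun b => hcol _)

end Pool.Agent.K3h68.ET
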