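import Pool.Agent.K3h10.EX.Coord
import Pool.Agent.K3h68.ET.GENA

/-! ET brick COORD2 for helper22 (coordinates on `L`), adapted from helper10's COORD -/

set_option autoImplicit false

namespace Pool.Agent.K3h68.ET

open Pool.Agent.K3h22.EX MvPolynomial Pool.Agent.K3h10.EX

/-- rows independent over `ℚ` are independent over `K` -/
theorem rowsK {K : Type} [Field K] [CharZero K] {k n : ℕ} (M : Fin k → Fin n → ℚ)
    (hM : LinearIndependent ℚ M) (c : Fin k → K) (h : ∀ j, ∑ i, c i * (M i j : K) = 0) : c = 0 := by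
  have h1 : ((Matrix.of fun a b => ∑ i, M a i * M b i).map (algebraMap ℚ K)).det ≠ 0 := by
    rw [← RingHom.mapMatrix_apply, ← RingHom.map_det]
    intro h0
    exact gram_ne M hM ((map_eq_zero_iff _ (algebraMap ℚ K).injective).1 h0)
  refine Matrix.eq_zero_of_vecMul_eq_zero h1 (funext fun b => ?_)
  simp only [Matrix.vecMul, dotProduct, Matrix.map_apply, Matrix.of_apply, map_sum, map_mul,
    eq_ratCast, Finset.mul_sum, Pi.zero_apply]
  rw [Finset.sum_comm]
  refine Finset.sum_eq_zero fun j _ => ?_
  have : ∑ a, c a * ((M a j : K) * (M b j : K)) = (∑ a, c a * (M a j : K)) * (M b j : K) := by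
    rw [Finset.sum_mul]
    exact Finset.sum_congr rfl fun a _ => by ring
  rw [this, h j, zero_mul]

theorem spanK {K : Type} [Field K] [CharZero K] {k n : ℕ} (M : Fin k → Fin n → ℚ)
    (c : Fin k → K) :
    Module.finrank ℚ (Submodule.span ℚ (Set.range fun j => ∑ i, c i * (M i j : K))) ≤ k := by
  have : FiniteDimensional ℚ (Submodule.span ℚ (Set.range c)) :=
    FiniteDimensional.span_of_finite ℚ (Set.finite_range c)
  have hle : Submodule.span ℚ (Set.range fun j => ∑ i, c i * (M i j : K)) ≤
      Submodule.span ℚ (Set.range c) := by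
    rw [Submodule.span_le]
    rintro _ ⟨j, rfl⟩
    refine Submodule.sum_mem _ fun i _ => ?_
    have h1 : c i * (M i j : K) = (M i j) • c i := by
      rw [Rat.smul_def, mul_comm]
    rw [h1]
    exact Submodule.smul_mem _ _ (Submodule.subset_span ⟨i, rfl⟩)
  have h2 := Submodule.finrank_mono hle
  have h3 := finrank_range_le_card (R := ℚ) c
  rw [Fintype.card_fin] at h3
  exact h2.trans h3

theorem t_COORD2 : S_COORD2 := by
  classical
  intro n s V L hG hne hVL hden
  obtain ⟨hs, hreal, hcomp⟩ := hG
  obtain ⟨ι, E, hinj, hE⟩ := sub_coords n s L.direction hs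
  obtain ⟨u₀, hu₀⟩ := hne
  set x₀ : Fin n → ℂ := fun i => u₀ (Sum.inl i) with hx₀
  have hx₀L : x₀ ∈ L := hVL u₀ hu₀
  let w : Fin s → L.direction := fun a => E.symm (Pi.single a 1)
  have hEw : ∀ a, E (w a) = Pi.single a 1 := fun a => E.apply_symm_apply _
  have hw : ∀ v : L.direction, v = ∑ a, (v : Fin n → ℂ) (ι a) • w a := by
    intro v
    apply E.injective
    rw [map_sum]
    ext b
    simp only [map_smul, Finset.sum_apply, Pi.smul_apply, smul_eq_mul]
    simp only [hEw]
    simp [Pi.single_apply, hE v b]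
  have hwi : ∀ v : L.direction, ∀ i, (v : Fin n → ℂ) i =
      ∑ a, (w a : Fin n → ℂ) i * (v : Fin n → ℂ) (ι a) := by
    intro v i
    refine (congrArg (fun t : L.direction => (t : Fin n → ℂ) i) (hw v)).trans ?_
    simp [Finset.sum_apply, mul_comm]
  have hcomb : ∀ c : Fin s → ℂ, ∀ b, ((∑ a, c a • w a : L.direction) : Fin n → ℂ) (ι b) = c b := by
    intro c b
    rw [← hE, map_sum]
    simp only [map_smul, hEw, Finset.sum_apply, Pi.smul_apply, smul_eq_mul]
    simp [Pi.single_apply]
  have hzero : ∀ c : Fin n → ℂ, (∀ a, ∑ i, c i * (w a : Fin n → ℂ) i = 0) →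
      ∀ v ∈ L.direction, ∑ i, c i * v i = 0 := by
    intro c hc v hv
    have h1 : ∀ i, v i = ∑ a, (w a : Fin n → ℂ) i * v (ι a) := fun i => hwi ⟨v, hv⟩ i
    calc ∑ i, c i * v i = ∑ i, ∑ a, c i * (w a : Fin n → ℂ) i * v (ι a) := by
          refine Finset.sum_congr rfl fun i _ => ?_
          conv_lhs => rw [h1 i]
          rw [Finset.mul_sum]
          exact Finset.sum_congr rfl fun a _ => by ring
      _ = ∑ a, (∑ i, c i * (w a : Fin n → ℂ) i) * v (ι a) := by
          rw [Finset.sum_comm]
          exact Finset.sum_congr rfl fun a _ => by rw [Finset.sum_mul]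
      _ = 0 := by
          refine Finset.sum_eq_zero fun a _ => ?_
          rw [hc a, zero_mul]
  refine ⟨ι, fun i a => (w a : Fin n → ℂ) i, fun i => x₀ i - ∑ a, (w a : Fin n → ℂ) i * x₀ (ι a),
    hinj, ?_, ?_, ?_, ?_⟩
  · intro u hu i
    have h1 : (fun i => u (Sum.inl i)) - x₀ ∈ L.direction :=
      AffineSubspace.vsub_mem_direction (hVL u hu) hx₀L
    have h2 := hwi ⟨_, h1⟩ i
    simp only [Pi.sub_apply, mul_sub, Finset.sum_sub_distrib] at h2
    linear_combination h2
  · intro f hfv hf
    have hsub : (f.vars : Set (Fin n ⊕ Fin n)) ⊆ Set.range fun a => (Sum.inl (ι a) : Fin n ⊕ Fin n) := by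
      intro x hx
      have h1 := hfv hx
      simp only [coords, Finset.image_empty, Finset.union_empty, Finset.mem_image,
        Finset.mem_univ, true_and] at h1
      exact h1
    have hinj' : Function.Injective fun a => (Sum.inl (ι a) : Fin n ⊕ Fin n) := by
      intro a b hab
      exact hinj (Sum.inl_injective hab)
    obtain ⟨h, rfl⟩ := exists_rename_eq_of_vars_subset_range f _ hinj' hsub
    have h1 : ∀ x ∈ L, eval x (rename ι h) = 0 := by
      apply hden
      intro u hu
      have h2 := hf u hu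
      rw [eval_rename] at h2 ⊢
      exact h2
    have h2 : h = 0 := by
      apply MvPolynomial.funext
      intro z
      have h3 : x₀ + ((∑ a, (z a - x₀ (ι a)) • w a : L.direction) : Fin n → ℂ) ∈ L := by
        have := AffineSubspace.vadd_mem_of_mem_direction
          (∑ a, (z a - x₀ (ι a)) • w a : L.direction).2 hx₀L
        rwa [vadd_eq_add, add_comm] at this
      have h4 := h1 _ h3
      rw [eval_rename] at h4
      rw [map_zero, ← h4]
      congr 1
      congr 1
      funext b
      simp only [Function.comp_apply, Pi.add_apply]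
      rw [hcomb]
      ring
    rw [h2, map_zero]
  · intro k M c hk hM hc
    apply rowsK M hM c
    intro j
    by_contra hj
    have hne : (fun j => ∑ i, c i * (M i j : ℝ)) ≠ 0 := fun h => hj (congrFun h j)
    obtain ⟨v, hv, hv0⟩ := hreal _ hne ((spanK M c).trans hk)
    apply hv0
    refine hzero (fun j => ((∑ i, c i * (M i j : ℝ) : ℝ) : ℂ)) (fun a => ?_) v hv
    rw [← hc a]
    simp only [Complex.ofReal_sum, Complex.ofReal_mul, Complex.ofReal_ratCast, Finset.sum_mul,
      Finset.mul_sum]
    rw [Finset.sum_comm]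
    exact Finset.sum_congr rfl fun i _ => Finset.sum_congr rfl fun j _ => by ring
  · intro M hM hdet
    obtain ⟨z, hz, hMz⟩ := Matrix.exists_vecMul_eq_zero_iff.mpr hdet
    apply hz
    apply rowsK (fun a => M a) hM z
    intro j
    by_contra hj
    have hne : (fun j => ∑ i, z i * ((M i j : ℚ) : ℂ)) ≠ 0 := fun h => hj (congrFun h j)
    obtain ⟨v, hv, hv0⟩ := hcomp _ hne (spanK (fun a => M a) z)
    apply hv0
    refine hzero (fun j => ∑ i, z i * ((M i j : ℚ) : ℂ)) (fun a => ?_) v hv
    have h1 := congrFun hMz a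
    simp only [Matrix.vecMul, dotProduct, Matrix.of_apply, Pi.zero_apply] at h1
    rw [← h1]
    simp only [Finset.sum_mul, Finset.mul_sum]
    rw [Finset.sum_comm]
    exact Finset.sum_congr rfl fun i _ => Finset.sum_congr rfl fun j _ => by ring

end Pool.Agent.K3h68.ET
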