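import Pool.Agent.K3h22.EX.Stm6

/-! ET bricks HYP2 and GENA for helper22 (general position of linear spaces) -/

set_option autoImplicit false

namespace Pool.Agent.K3h68.ET

open Pool.Agent.K3h22.EX MvPolynomial

/-- write the entries of `c` through a rational matrix with independent rows -/
theorem ratRows {K : Type} [Field K] [CharZero K] {n : ℕ} (c : Fin n → K) (r : ℕ)
    (hr : Module.finrank ℚ (Submodule.span ℚ (Set.range c)) = r) :
    ∃ (p : Fin r → Fin n → ℚ) (l : Fin r → K),
      LinearIndependent ℚ p ∧ ∀ i, c i = ∑ k, (p k i : K) * l k := by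
  classical
  have : FiniteDimensional ℚ (Submodule.span ℚ (Set.range c)) :=
    FiniteDimensional.span_of_finite ℚ (Set.finite_range c)
  let b : Module.Basis (Fin r) ℚ (Submodule.span ℚ (Set.range c)) := Module.finBasisOfFinrankEq _ _ hr
  have hc : ∀ i, c i ∈ Submodule.span ℚ (Set.range c) := fun i => Submodule.subset_span ⟨i, rfl⟩
  refine ⟨fun k i => b.repr ⟨c i, hc i⟩ k, fun k => (b k : K), ?_, ?_⟩
  · rw [Fintype.linearIndependent_iff]
    intro g hg
    let φ : (Submodule.span ℚ (Set.range c)) →ₗ[ℚ] ℚ := ∑ k, g k • b.coord k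
    have hφ : ∀ (x : K) (hx : x ∈ Submodule.span ℚ (Set.range c)), φ ⟨x, hx⟩ = 0 := by
      intro x hx
      induction hx using Submodule.span_induction with
      | mem x h =>
        obtain ⟨i, rfl⟩ := h
        have := congrFun hg i
        simp only [Finset.sum_apply, Pi.smul_apply, smul_eq_mul, Pi.zero_apply] at this
        simp only [φ, LinearMap.sum_apply, LinearMap.smul_apply, smul_eq_mul, Module.Basis.coord_apply]
        exact this
      | zero => exact map_zero φ
      | add x y hx hy h1 h2 =>
        have := map_add φ ⟨x, hx⟩ ⟨y, hy⟩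
        rw [h1, h2, add_zero] at this
        exact this
      | smul a x hx h1 =>
        have := map_smul φ a ⟨x, hx⟩
        rw [h1, smul_zero] at this
        exact this
    intro k
    have h := hφ _ (b k).2
    simp only [φ, LinearMap.sum_apply, LinearMap.smul_apply, smul_eq_mul, Module.Basis.coord_apply,
      Subtype.coe_eta, Module.Basis.repr_self, Finsupp.single_apply] at h
    simpa using h
  · intro i
    have h := congrArg (fun x : Submodule.span ℚ (Set.range c) => (x : K)) (b.sum_repr ⟨c i, hc i⟩)
    simp only [Submodule.coe_sum, Submodule.coe_smul] at h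
    rw [← h]
    exact Finset.sum_congr rfl fun k _ => Rat.smul_def _ _

theorem extendRows {K : Type} [Field K] [CharZero K] {n : ℕ} (c : Fin n → K) (s : ℕ)
    (hs : s ≤ n) : ∀ (d r : ℕ), r + d = s → ∀ (p : Fin r → Fin n → ℚ) (l : Fin r → K),
      LinearIndependent ℚ p → (∀ i, c i = ∑ k, (p k i : K) * l k) →
      ∃ (M : Fin s → Fin n → ℚ) (l' : Fin s → K), LinearIndependent ℚ M ∧
        ∀ i, c i = ∑ k, (M k i : K) * l' k := by
  intro d
  induction d with
  | zero =>
    intro r hr p l hp hc
    obtain rfl : r = s := by omega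
    exact ⟨p, l, hp, hc⟩
  | succ d ih =>
    intro r hr p l hp hc
    obtain ⟨x, hx⟩ := exists_linearIndependent_snoc_of_lt_finrank (v := p) hp
      (by rw [Module.finrank_fin_fun]; omega)
    refine ih (r + 1) (by omega) (Fin.snoc p x) (Fin.snoc l 0) hx fun i => ?_
    rw [Fin.sum_univ_castSucc]
    simp only [Fin.snoc_castSucc, Fin.snoc_last, mul_zero, add_zero]
    exact hc i

/-- HYP2 -/
theorem t_HYP2 : S_HYP2 := by
  intro n s L ⟨h1, h2, h3⟩
  have hsn : s ≤ n := by
    rw [← h1]
    exact (Submodule.finrank_le _).trans (by rw [Module.finrank_fin_fun])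
  refine ⟨h1, fun c hc _ => h2 c hc, fun c hc hr => ?_⟩
  obtain ⟨p, l, hp, hcp⟩ := ratRows c _ rfl
  obtain ⟨M, l', hM, hcM⟩ := extendRows c s hsn (s - Module.finrank ℚ (Submodule.span ℚ (Set.range c)))
    _ (by omega) p l hp hcp
  have hl : l' ≠ 0 := by
    rintro rfl
    exact hc (funext fun i => by rw [hcM i]; simp)
  obtain ⟨a₀, ha₀⟩ := Function.ne_iff.1 hl
  have hrank : (Matrix.of M).rank = s := by
    have := LinearIndependent.rank_matrix (M := Matrix.of M) hM
    rw [this, Fintype.card_fin]
  let T : L.direction →ₗ[ℂ] (Fin s → ℂ) :=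
    { toFun := fun v a => ∑ i, (M a i : ℂ) * (v : Fin n → ℂ) i
      map_add' := fun v w => funext fun a => by
        simp only [Submodule.coe_add, Pi.add_apply, mul_add, Finset.sum_add_distrib]
      map_smul' := fun t v => funext fun a => by
        simp only [Submodule.coe_smul, Pi.smul_apply, smul_eq_mul, RingHom.id_apply,
          Finset.mul_sum]
        exact Finset.sum_congr rfl fun i _ => by ring }
  have hinj : Function.Injective T := by
    rw [← LinearMap.ker_eq_bot, LinearMap.ker_eq_bot']
    intro v hv
    exact Subtype.ext (h3 (Matrix.of M) hrank v v.2 fun a => congrFun hv a)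
  have hsurj : Function.Surjective T :=
    (LinearMap.injective_iff_surjective_of_finrank_eq_finrank
      (by rw [h1, Module.finrank_fin_fun])).1 hinj
  obtain ⟨v, hv⟩ := hsurj (Pi.single a₀ 1)
  refine ⟨v, v.2, ?_⟩
  have : ∑ i, c i * (v : Fin n → ℂ) i = l' a₀ := by
    calc ∑ i, c i * (v : Fin n → ℂ) i = ∑ i, ∑ a, l' a * ((M a i : ℂ) * (v : Fin n → ℂ) i) := by
          refine Finset.sum_congr rfl fun i _ => ?_
          rw [hcM i, Finset.sum_mul]
          exact Finset.sum_congr rfl fun a _ => by ring
      _ = ∑ a, l' a * T v a := by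
          rw [Finset.sum_comm]
          exact Finset.sum_congr rfl fun a _ => by rw [← Finset.mul_sum]; rfl
      _ = l' a₀ := by
          rw [hv]
          simp [Pi.single_apply]
  rw [this]
  exact ha₀

end Pool.Agent.K3h68.ET
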